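import Pool.Agent.W93.TD.Stm

set_option autoImplicit false

/-! TD-COEF: coefficient extraction. -/

namespace Pool.Agent.W899.TD.COEF

open Finset Polynomial

/-- A polynomial of degree below `n` with the `n` nonzero elements as zeros vanishes. -/
theorem poly_zero {F : Type} [Field F] [Fintype F] (n : ℕ) (hF : Fintype.card F = n + 1)
    (h : ℕ → F) (hz : ∀ y : F, y ≠ 0 → ∑ t ∈ range n, h t * y ^ t = 0) :
    ∀ t < n, h t = 0 := by
  classical
  set p : F[X] := ∑ t ∈ range n, C (h t) * X ^ t with hp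
  have hcoef : ∀ t, p.coeff t = if t < n then h t else 0 := by
    intro t
    rw [hp, Polynomial.finsetSum_coeff]
    simp only [Polynomial.coeff_C_mul_X_pow]
    rw [Finset.sum_ite_eq]
    simp only [Finset.mem_range]
  have hdeg : p.degree < ((Finset.univ.erase (0 : F)).card : ℕ) := by
    rw [Finset.card_erase_of_mem (Finset.mem_univ _), Finset.card_univ, hF, Nat.add_sub_cancel]
    rw [Polynomial.degree_lt_iff_coeff_zero]
    intro m hm
    rw [hcoef, if_neg (by omega)]
  have h0 : p = 0 := by
    refine Polynomial.eq_zero_of_degree_lt_of_eval_finset_eq_zero _ hdeg ?_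
    intro y hy
    rw [hp, Polynomial.eval_finsetSum]
    simp only [Polynomial.eval_mul, Polynomial.eval_C, Polynomial.eval_pow, Polynomial.eval_X]
    exact hz y (Finset.ne_of_mem_erase hy)
  intro t ht
  have h1 := hcoef t
  rw [h0, Polynomial.coeff_zero, if_pos ht] at h1
  exact h1.symm

/-- Reindexing of the inner sum. -/
theorem inner {F : Type} [Field F] (n : ℕ) (hn : 0 < n) (c : ℕ → F) (i : ℕ) (hi : i < n) (y : F)
    (hy : y ^ n = 1) :
    ∑ j ∈ range n, c j * y ^ (i + j) = ∑ t ∈ range n, c ((t + n - i) % n) * y ^ t := by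
  refine Finset.sum_bij' (fun j _ => (i + j) % n) (fun t _ => (t + n - i) % n) ?_ ?_ ?_ ?_ ?_
  · intro j _
    exact Finset.mem_range.2 (Nat.mod_lt _ hn)
  · intro t _
    exact Finset.mem_range.2 (Nat.mod_lt _ hn)
  · intro j hj
    rw [Finset.mem_range] at hj
    show ((i + j) % n + n - i) % n = j
    by_cases h : i + j < n
    · rw [Nat.mod_eq_of_lt h]
      have e : i + j + n - i = j + n := by omega
      rw [e, Nat.add_mod_right, Nat.mod_eq_of_lt hj]
    · have e : (i + j) % n = i + j - n := by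
        rw [Nat.mod_eq_sub_mod (by omega), Nat.mod_eq_of_lt (by omega)]
      rw [e]
      have e2 : i + j - n + n - i = j := by omega
      rw [e2, Nat.mod_eq_of_lt hj]
  · intro t ht
    rw [Finset.mem_range] at ht
    show (i + (t + n - i) % n) % n = t
    rw [Nat.add_mod_mod]
    have e : i + (t + n - i) = t + n := by omega
    rw [e, Nat.add_mod_right, Nat.mod_eq_of_lt ht]
  · intro j hj
    rw [Finset.mem_range] at hj
    have e1 : ((i + j) % n + n - i) % n = j := by
      by_cases h : i + j < n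
      · rw [Nat.mod_eq_of_lt h]
        have e : i + j + n - i = j + n := by omega
        rw [e, Nat.add_mod_right, Nat.mod_eq_of_lt hj]
      · have e : (i + j) % n = i + j - n := by
          rw [Nat.mod_eq_sub_mod (by omega), Nat.mod_eq_of_lt (by omega)]
        rw [e]
        have e2 : i + j - n + n - i = j := by omega
        rw [e2, Nat.mod_eq_of_lt hj]
    rw [e1]
    congr 1
    conv_lhs => rw [← Nat.mod_add_div (i + j) n, pow_add, pow_mul, hy, one_pow, mul_one]

theorem t_COEF : W93.TD.S_COEF := by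
  intro k F _ _ c γ hk hF hc hP
  have h2 : 2 ≤ 2 ^ k := by
    calc 2 = 2 ^ 1 := by norm_num
      _ ≤ 2 ^ k := Nat.pow_le_pow_right (by norm_num) hk
  obtain ⟨n, hn⟩ : ∃ n, 2 ^ k = n + 1 := ⟨2 ^ k - 1, by omega⟩
  have hn0 : 0 < n := by omega
  unfold W93.TD.P at hP
  rw [hn] at hF hc hP ⊢
  rw [Nat.add_sub_cancel] at hc ⊢
  refine poly_zero n hF (fun t => ∑ i ∈ range n, c i ((t + n - i) % n) * γ ^ i) ?_
  intro y hy
  have hyn : y ^ n = 1 := by
    have h3 := FiniteField.pow_card_sub_one_eq_one y hy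
    rw [hF, Nat.add_sub_cancel] at h3
    exact h3
  rw [← hP y hy, sum_range_succ]
  have e1 : ∑ j ∈ range (n + 1), c n j * (γ * y) ^ n * y ^ j = 0 := by
    refine sum_eq_zero (fun j _ => ?_)
    rw [hc n j (Or.inl rfl), zero_mul, zero_mul]
  rw [e1, add_zero]
  have e2 : ∀ i ∈ range n, ∑ j ∈ range (n + 1), c i j * (γ * y) ^ i * y ^ j =
      γ ^ i * ∑ t ∈ range n, c i ((t + n - i) % n) * y ^ t := by
    intro i hi
    rw [← inner n hn0 (c i) i (mem_range.1 hi) y hyn, sum_range_succ, hc i n (Or.inr rfl),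
      zero_mul, zero_mul, add_zero, mul_sum]
    refine sum_congr rfl (fun j _ => ?_)
    rw [mul_pow, pow_add]
    ring
  rw [sum_congr rfl e2]
  simp only [sum_mul, mul_sum]
  rw [sum_comm]
  refine sum_congr rfl (fun i _ => sum_congr rfl (fun t _ => ?_))
  ring

end Pool.Agent.W899.TD.COEF
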